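import Pool.Agent.Helper96.SP.QPARU

/-!
# Künneth projectors and Schur powers: definitions
-/

open CategoryTheory MonoidalCategory Limits BraidedCategory

universe u v w

namespace Pool.Agent.Helper8.SW

open Pool.Agent.TH90.AB Pool.Agent.TH90.Kim Pool.Agent.Helper96.Kim Pool.Agent.Helper96.SP

noncomputable section

variable {𝒜 : Type u} [Category.{v} 𝒜] [MonoidalCategory 𝒜] [SymmetricCategory 𝒜]
  [Preadditive 𝒜] [MonoidalPreadditive 𝒜] [Linear ℚ 𝒜] [MonoidalLinear ℚ 𝒜]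
  {K : Type w} [Field K] [CharZero K]

/-- A grading of the realisation, whose parity is the parity of the degree. -/
structure Grading (F : Realisation 𝒜 K) where
  pr : ∀ (_ : ℤ) (X : 𝒜), F.V X →ₗ[K] F.V X
  pr_pr : ∀ (i j : ℤ) (X : 𝒜) (x : F.V X), pr i X (pr j X x) = if i = j then pr j X x else 0
  total : ∀ X : 𝒜, ∃ s : Finset ℤ, ∀ x : F.V X, x = ∑ i ∈ s, pr i X x
  pr_map : ∀ (i : ℤ) {X Y : 𝒜} (f : X ⟶ Y) (x : F.V X), pr i Y (F.map f x) = F.map f (pr i X x)
  pr_ext : ∀ (i j : ℤ) {X Y : 𝒜} (x : F.V X) (y : F.V Y),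
    pr (i + j) (X ⊗ Y) (F.ext (pr i X x) (pr j Y y)) = F.ext (pr i X x) (pr j Y y)
  pr_one : pr 0 (𝟙_ 𝒜) F.one = F.one
  par_pr : ∀ (i : ℤ) (X : 𝒜) (x : F.V X),
    F.par X (pr i X x) = (if Even i then (1 : K) else -1) • pr i X x

/-- The `K`-span of the realisations of the endomorphisms of `X`. -/
def Alg (F : Realisation 𝒜 K) (X : 𝒜) : Submodule K (F.V X →ₗ[K] F.V X) :=
  Submodule.span K (Set.range fun f : X ⟶ X => F.map f)

/-- The number of the letters `i` in the word `w`. -/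
def cnt {d n : ℕ} (i : Fin d) (w : Fin n → Fin d) : ℕ := (Finset.univ.filter fun l => w l = i).card

/-- The weight of the word `w`. -/
def wt {d n : ℕ} (dg : Fin d → ℤ) (w : Fin n → Fin d) : ℤ := ∑ l, dg (w l)

end

end Pool.Agent.Helper8.SW
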